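import Mathlib
set_option autoImplicit false
set_option maxRecDepth 100000
namespace Pool.Agent.Results.MP_c13936_co.Counter
open SimpleGraph Finset

/-- `G` is connected, has two vertex-disjoint circuits, and deleting fewer than `k` edges never
leaves two circuits in different components. -/
def CycConn {V : Type} (G : SimpleGraph V) (k : ℕ) : Prop :=
  G.Connected ∧
  (∃ (u v : V) (c : G.Walk u u) (d : G.Walk v v), c.IsCycle ∧ d.IsCycle ∧
    c.support.Disjoint d.support) ∧
  ∀ S : Finset (Sym2 V), S.card < k →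
    ∀ (u v : V) (c : (G.deleteEdges S).Walk u u) (d : (G.deleteEdges S).Walk v v),
      c.IsCycle → d.IsCycle → (G.deleteEdges S).Reachable u v

/-- `S` is a set of edges of `G` inducing a path system: no circuit, and no vertex on three or
more edges of `S`. -/
def PathSystem {V : Type} [DecidableEq V] (G : SimpleGraph V) (S : Finset (Sym2 V)) : Prop :=
  (S : Set (Sym2 V)) ⊆ G.edgeSet ∧ (fromEdgeSet (S : Set (Sym2 V))).IsAcyclic ∧
  ∀ v : V, (S.filter (fun e => v ∈ e)).card ≤ 2

def el : List (ℕ × ℕ) := [(0,1),(1,2),(2,3),(3,4),(4,5),(5,6),(6,7),(7,8),(8,9),(9,10),(10,11),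
  (11,12),(12,13),(0,13),(0,5),(2,7),(4,9),(6,11),(8,13),(1,10),(3,12)]

def H : SimpleGraph (Fin 14) where
  Adj a b := (a.val, b.val) ∈ el ∨ (b.val, a.val) ∈ el
  symm := ⟨fun _ _ h => h.symm⟩
  loopless := ⟨by decide +kernel⟩

instance : DecidableRel H.Adj := fun a b =>
  inferInstanceAs (Decidable ((a.val, b.val) ∈ el ∨ (b.val, a.val) ∈ el))

def cutN (m : ℕ) : ℕ := (el.filter (fun p => m.testBit p.1 != m.testBit p.2)).length
def popN (m : ℕ) : ℕ := ((List.range 14).filter (fun i => m.testBit i)).length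

noncomputable def cutF (m : ℕ) (l : List (ℕ × ℕ)) : ℕ :=
  List.rec 0 (fun p _ ih => Prod.rec (fun a b =>
    Nat.add (Nat.land 1 (Nat.xor (Nat.shiftRight m a) (Nat.shiftRight m b))) ih) p) l

theorem cutF_eq (m : ℕ) (l : List (ℕ × ℕ)) :
    cutF m l = (l.filter (fun p => m.testBit p.1 != m.testBit p.2)).length := by
  induction l with
  | nil => rfl
  | cons p l ih =>
    obtain ⟨a, b⟩ := p
    show (1 &&& ((m >>> a) ^^^ (m >>> b))) + cutF m l = _
    have h : (m.testBit a != m.testBit b) = ((m >>> a) ^^^ (m >>> b)).testBit 0 := by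
      rw [Nat.testBit_xor, Nat.testBit_shiftRight, Nat.testBit_shiftRight]; rfl
    rw [List.filter_cons, ih, h, Nat.testBit_zero, Nat.one_and_eq_mod_two]
    rcases Nat.mod_two_eq_zero_or_one ((m >>> a) ^^^ (m >>> b)) with h' | h' <;> simp [h'] <;> omega

noncomputable def loop (n : ℕ) : Bool :=
  Nat.rec true (fun m ih => cond (Nat.ble 6 (cutF m el)) ih ((popN m ≤ 3 || 11 ≤ popN m) && ih)) n

theorem loop_spec (n : ℕ) : loop n = true → ∀ m < n, 6 ≤ cutN m ∨ popN m ≤ 3 ∨ 11 ≤ popN m := by
  induction n with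
  | zero => intro _ m hm; omega
  | succ n ih =>
    intro h m hm
    change cond (Nat.ble 6 (cutF n el)) (loop n) ((popN n ≤ 3 || 11 ≤ popN n) && loop n) = true at h
    cases h6 : Nat.ble 6 (cutF n el) with
    | true =>
      rw [h6, cond_true] at h
      rcases Nat.lt_succ_iff_lt_or_eq.mp hm with hm | rfl
      · exact ih h m hm
      · left; rw [cutN, ← cutF_eq]; exact Nat.le_of_ble_eq_true h6
    | false =>
      rw [h6, cond_false, Bool.and_eq_true] at h
      rcases Nat.lt_succ_iff_lt_or_eq.mp hm with hm | rfl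
      · exact ih h.2 m hm
      · right; simpa using h.1

theorem chk : loop 16384 = true := by decide +kernel

theorem exists_mask (X : Finset (Fin 14)) : ∃ m < 16384, ∀ i : Fin 14, m.testBit i = decide (i ∈ X) := by
  refine ⟨Nat.ofBits (fun i : Fin 14 => decide (i ∈ X)), Nat.ofBits_lt_two_pow _, fun i => ?_⟩
  rw [Nat.testBit_ofBits_lt _ _ i.isLt]

def eF : List (Fin 14 × Fin 14) := el.map (fun p => (Fin.ofNat 14 p.1, Fin.ofNat 14 p.2))

theorem cut_bound (X : Finset (Fin 14)) (S : Finset (Sym2 (Fin 14))) (hS : S.card < 6)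
    (h : ∀ a b, H.Adj a b → a ∈ X → b ∉ X → s(a, b) ∈ S) : X.card ≤ 3 ∨ Xᶜ.card ≤ 3 := by
  obtain ⟨m, hm, hb⟩ := exists_mask X
  have h1 := loop_spec _ chk m hm
  have hp : popN m = X.card := by
    have : (List.range 14).filter (fun i => m.testBit i) =
        ((List.finRange 14).filter (fun i => decide (i ∈ X))).map Fin.val := by
      rw [← List.map_coe_finRange_eq_range, List.filter_map]
      congr 2; funext i; exact hb i
    rw [popN, this, List.length_map, ← List.toFinset_card_of_nodup ((List.nodup_finRange 14).filter _)]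
    congr 1; ext i; simp
  have hc : cutN m ≤ S.card := by
    have e1 : el = eF.map (fun p => (p.1.val, p.2.val)) := by decide +kernel
    have nd : (eF.map (fun p => s(p.1, p.2))).Nodup := by decide +kernel
    have adj : ∀ p ∈ eF, H.Adj p.1 p.2 := by decide +kernel
    have : cutN m = ((eF.filter (fun p => decide (p.1 ∈ X) != decide (p.2 ∈ X))).map
        (fun p => s(p.1, p.2))).length := by
      rw [cutN, e1, List.filter_map, List.length_map, List.length_map]
      congr 2; funext p; simp only [Function.comp, hb]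
    rw [this, ← List.toFinset_card_of_nodup (nd.sublist (List.filter_sublist.map _))]
    apply card_le_card
    intro e he
    simp only [List.mem_toFinset, List.mem_map, List.mem_filter] at he
    obtain ⟨p, ⟨hp1, hp2⟩, rfl⟩ := he
    by_cases ha : p.1 ∈ X
    · exact h _ _ (adj p hp1) ha (by simpa [ha] using hp2)
    · rw [Sym2.eq_swap]; exact h _ _ (adj p hp1).symm (by simpa [ha] using hp2) ha
  have := card_compl X
  simp only [Fintype.card_fin] at this
  omega

theorem no_small (G : SimpleGraph (Fin 14)) (hG : G ≤ H) (X : Finset (Fin 14)) (hX : X.card ≤ 3)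
    (u : Fin 14) (c : G.Walk u u) (hc : c.IsCycle) (hs : ∀ w ∈ c.support, w ∈ X) : False := by
  have h3 := hc.three_le_length
  have hl : c.length ≤ 3 := by
    have h1 := List.toFinset_card_of_nodup hc.support_nodup
    have h2 : c.support.tail.toFinset ⊆ X := fun w hw =>
      hs w (List.mem_of_mem_tail (List.mem_toFinset.mp hw))
    have h4 := card_le_card h2
    rw [List.length_tail, Walk.length_support] at h1
    omega
  obtain ⟨s, hs⟩ := is3Clique_iff_exists_cycle_length_three.mpr ⟨u, c, hc, by omega⟩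
  obtain ⟨a, b, d, h1, h2, h3, -⟩ := is3Clique_iff.mp hs
  have : ∀ a b d : Fin 14, H.Adj a b → H.Adj a d → H.Adj b d → False := by decide +kernel
  exact this a b d (hG h1) (hG h2) (hG h3)

theorem hconn : H.Connected := by
  have h : ∀ i : Fin 14, H.Reachable 0 i := by
    intro i
    induction i using Fin.induction with
    | zero => rfl
    | succ i ih =>
      have : ∀ i : Fin 13, H.Adj i.castSucc i.succ := by decide +kernel
      exact ih.trans (this i).reachable
  exact ⟨fun a b => (h a).symm.trans (h b)⟩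

def c1 : H.Walk 0 0 := .cons (v := 1) (by decide +kernel) (.cons (v := 2) (by decide +kernel) (.cons (v := 3) (by decide +kernel)
  (.cons (v := 4) (by decide +kernel) (.cons (v := 5) (by decide +kernel) (.cons (by decide +kernel) .nil)))))
def c2 : H.Walk 6 6 := .cons (v := 7) (by decide +kernel) (.cons (v := 8) (by decide +kernel) (.cons (v := 9) (by decide +kernel)
  (.cons (v := 10) (by decide +kernel) (.cons (v := 11) (by decide +kernel) (.cons (by decide +kernel) .nil)))))

theorem hcyc : CycConn H 6 := by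
  classical
  refine ⟨hconn, ⟨0, 6, c1, c2, ?_, ?_, ?_⟩, ?_⟩
  · rw [Walk.isCycle_def, Walk.isTrail_def]; exact ⟨by decide +kernel, by simp [c1], by decide +kernel⟩
  · rw [Walk.isCycle_def, Walk.isTrail_def]; exact ⟨by decide +kernel, by simp [c2], by decide +kernel⟩
  · rw [List.disjoint_left]; decide +kernel
  · intro S hS u v c d hc hd
    by_contra huv
    rcases cut_bound (univ.filter (fun w => (H.deleteEdges S).Reachable u w)) S hS (by
      intro a b hab ha hb
      by_contra hs
      simp only [mem_filter, mem_univ, true_and] at ha hb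
      exact hb (ha.trans (Adj.reachable (deleteEdges_adj.mpr ⟨hab, hs⟩)))) with h | h
    · refine no_small _ (deleteEdges_le _) _ h u c hc (fun w hw => ?_)
      simp only [mem_filter, mem_univ, true_and]
      exact ⟨c.takeUntil w hw⟩
    · refine no_small _ (deleteEdges_le _) _ h v d hd (fun w hw => ?_)
      simp only [mem_compl, mem_filter, mem_univ, true_and]
      exact fun h' => huv (h'.trans ⟨(d.takeUntil w hw).reverse⟩)

def S0 : Finset (Sym2 (Fin 14)) := {s(1, 10), s(0, 13), s(0, 5), s(2, 3), s(2, 7)}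

theorem two_nb {G : SimpleGraph (Fin 14)} {u v : Fin 14} (c : G.Walk u u) (hc : c.IsCycle)
    (hv : v ∈ c.support) : ∃ x y, x ≠ y ∧ ∀ w, s(v, w) ∈ c.edges ↔ (w = x ∨ w = y) := by
  obtain ⟨x, y, hxy, h⟩ := Set.ncard_eq_two.mp (hc.ncard_neighborSet_toSubgraph_eq_two hv)
  refine ⟨x, y, hxy, fun w => ?_⟩
  rw [← Walk.mem_edges_toSubgraph, Subgraph.mem_edgeSet, ← Subgraph.mem_neighborSet, h]
  simp

theorem hpath : PathSystem H S0 := by
  refine ⟨?_, ?_, by decide +kernel⟩
  · intro e he
    have : ∀ e ∈ S0, e ∈ H.edgeSet := by decide +kernel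
    exact this e he
  · intro u c hc
    have key : ∀ v ∈ c.support, ∀ w, s(v, w) ∈ c.edges → s(v, w) ∈ S0 := fun v _ w h => by
      have := c.edges_subset_edgeSet h
      rw [edgeSet_fromEdgeSet] at this
      exact this.1
    obtain ⟨x, y, hxy, h⟩ := two_nb c hc c.start_mem_support
    have hx := (h x).2 (Or.inl rfl)
    have hy := (h y).2 (Or.inr rfl)
    have hx' := c.snd_mem_support_of_mem_edges hx
    obtain ⟨p, q, hpq, h'⟩ := two_nb c hc hx'
    have : ∀ u x y p q : Fin 14, s(u, x) ∈ S0 → s(u, y) ∈ S0 → x ≠ y → s(x, p) ∈ S0 → s(x, q) ∈ S0 →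
        p = q := by
      have a1 : ∀ u x y : Fin 14, s(u, x) ∈ S0 → s(u, y) ∈ S0 → x ≠ y → (u = 0 ∨ u = 2) := by
        decide +kernel
      have a2 : ∀ u x : Fin 14, s(u, x) ∈ S0 → (u = 0 ∨ u = 2) → ¬ (x = 0 ∨ x = 2) := by
        decide +kernel
      intro u x y p q h1 h2 h3 h4 h5
      by_contra h6
      exact a2 u x h1 (a1 u x y h1 h2 h3) (a1 x p q h4 h5 h6)
    exact hpq (this u x y p q (key _ c.start_mem_support _ hx) (key _ c.start_mem_support _ hy) hxy
      (key _ hx' _ ((h' p).2 (Or.inl rfl))) (key _ hx' _ ((h' q).2 (Or.inr rfl))))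

theorem three {G : SimpleGraph (Fin 14)} {u v : Fin 14} (c : G.Walk u u) (hc : c.IsCycle)
    (a b d : Fin 14) (ha : s(v, a) ∈ c.edges) (hb : s(v, b) ∈ c.edges) (hd : s(v, d) ∈ c.edges) :
    a = b ∨ a = d ∨ b = d := by
  obtain ⟨x, y, -, h⟩ := two_nb c hc (c.fst_mem_support_of_mem_edges ha)
  rw [h] at ha hb hd
  rcases ha with rfl | rfl <;> rcases hb with hb | hb <;> rcases hd with hd | hd <;> simp [hb, hd]

/-- A cubic, cyclically 6-edge-connected graph and 5 edges inducing a path system that lie on no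
common circuit. -/
theorem result : ∃ (G : SimpleGraph (Fin 14)) (S : Finset (Sym2 (Fin 14))),
    (∀ v, (G.neighborSet v).ncard = 3) ∧ CycConn G 6 ∧ S.card = 6 - 1 ∧ PathSystem G S ∧
    ¬ ∃ (u : Fin 14) (c : G.Walk u u), c.IsCycle ∧ ∀ e ∈ S, e ∈ c.edges := by
  refine ⟨H, S0, fun v => ?_, hcyc, by decide +kernel, hpath, ?_⟩
  · rw [← coe_neighborFinset, Set.ncard_coe_finset]
    revert v; decide +kernel
  · rintro ⟨u, c, hc, h⟩
    have e1 := h s(1, 10) (by decide +kernel)
    obtain ⟨x, y, hxy, h'⟩ := two_nb c hc (c.fst_mem_support_of_mem_edges e1)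
    have hx := (h' x).2 (Or.inl rfl)
    have hy := (h' y).2 (Or.inr rfl)
    have nb : ∀ x y : Fin 14, H.Adj 1 x → H.Adj 1 y → x ≠ y → (x = 0 ∨ y = 0 ∨ x = 2 ∨ y = 2) := by
      decide +kernel
    have n0 : s(1, 0) ∉ c.edges := fun h0 => by
      rw [Sym2.eq_swap] at h0
      have := three c hc 1 13 5 h0 (h _ (by decide +kernel)) (h _ (by decide +kernel))
      revert this; decide +kernel
    have n2 : s(1, 2) ∉ c.edges := fun h0 => by
      rw [Sym2.eq_swap] at h0
      have := three c hc 1 3 7 h0 (h _ (by decide +kernel)) (h _ (by decide +kernel))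
      revert this; decide +kernel
    rcases nb x y (c.edges_subset_edgeSet hx) (c.edges_subset_edgeSet hy) hxy with rfl | rfl | rfl | rfl
    exacts [n0 hx, n0 hy, n2 hx, n2 hy]

end Pool.Agent.Results.MP_c13936_co.Counter
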